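import Pool.Agent.FGQ.Defs

set_option autoImplicit false

namespace Pool.Agent.FGQ

open Pool.Agent.MP_515f4e_co

/-- A geodesic spanning tree.  PROOF.  Choose `par : V → V` with `G.Adj (par y) y` and
`dist x y = dist x (par y) + 1` for every `y ≠ x` (a neighbour on a shortest walk; `exists_prev` of
Balls.lean gives `u` with `dist x u ≤ r`, `Adj u y` if `dist x y = r + 1`, and then `dist x u = r` by the
triangle inequality).  Put `anc j y = par^[dist x y - j] y` (natural subtraction).  Then
`dist x (par^[t] y) = dist x y - t` for `t ≤ dist x y`, `dist (par^[t] y) (par^[s] y) ≤ |t - s|`, etc. -/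
theorem exists_anc {V : Type} {G : SimpleGraph V} (hc : G.Connected) (x : V) :
    ∃ anc : ℕ → V → V, (∀ j y, G.dist x (anc j y) ≤ j) ∧
      (∀ i j y, j ≤ i → anc j (anc i y) = anc j y) ∧
      (∀ i l y, G.dist (anc i y) (anc (i + l) y) ≤ l) ∧
      (∀ j y, G.dist x y ≤ j → anc j y = y) := by
  have hpar : ∀ y, ∃ u, G.dist x u = G.dist x y - 1 ∧ G.dist u y ≤ 1 := by
    intro y
    rcases Nat.eq_zero_or_pos (G.dist x y) with h | h
    · exact ⟨y, by omega, by rw [SimpleGraph.dist_self]; omega⟩
    · obtain ⟨u, hu, hadj⟩ := exists_prev hc (show G.dist x y = (G.dist x y - 1) + 1 by omega)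
      have h1 : G.dist u y = 1 := SimpleGraph.dist_eq_one_iff_adj.2 hadj
      have h2 := hc.dist_triangle (u := x) (v := u) (w := y)
      exact ⟨u, by omega, by omega⟩
  choose par hp1 hp2 using hpar
  have hA : ∀ t y, G.dist x (par^[t] y) = G.dist x y - t := by
    intro t
    induction t with
    | zero => intro y; simp
    | succ t ih =>
      intro y
      rw [Function.iterate_succ_apply', hp1, ih]
      omega
  have hB : ∀ t y, G.dist (par^[t] y) y ≤ t := by
    intro t
    induction t with
    | zero => intro y; simp
    | succ t ih =>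
      intro y
      rw [Function.iterate_succ_apply']
      have h1 := hc.dist_triangle (u := par (par^[t] y)) (v := par^[t] y) (w := y)
      have h2 := hp2 (par^[t] y)
      have h3 := ih y
      omega
  refine ⟨fun j y => par^[G.dist x y - j] y, ?_, ?_, ?_, ?_⟩
  · intro j y
    show G.dist x (par^[G.dist x y - j] y) ≤ j
    rw [hA]
    omega
  · intro i j y hji
    show par^[G.dist x (par^[G.dist x y - i] y) - j] (par^[G.dist x y - i] y) = par^[G.dist x y - j] y
    rw [hA, ← Function.iterate_add_apply]
    congr 1
    congr 1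
    omega
  · intro i l y
    show G.dist (par^[G.dist x y - i] y) (par^[G.dist x y - (i + l)] y) ≤ l
    obtain ⟨t, ht⟩ : ∃ t, t = (G.dist x y - i) - (G.dist x y - (i + l)) := ⟨_, rfl⟩
    have h1 : par^[G.dist x y - i] y = par^[t] (par^[G.dist x y - (i + l)] y) := by
      rw [← Function.iterate_add_apply]
      congr 1
      congr 1
      omega
    rw [h1]
    have h2 := hB t (par^[G.dist x y - (i + l)] y)
    omega
  · intro j y h
    show par^[G.dist x y - j] y = y
    have : G.dist x y - j = 0 := by omega
    rw [this]
    rfl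

end Pool.Agent.FGQ
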