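import Pool.Agent.FGQ.Chain
import Pool.Agent.FGQ.Anc

set_option autoImplicit false

namespace Pool.Agent.FGQ

open Finset Pool.Agent.MP_515f4e_co

/-- The combinatorial core: chains in a geodesic spanning tree from `x`. -/
theorem core {V : Type} {G : SimpleGraph V} (hc : G.Connected) {D : ℕ}
    (hD : ∀ v, (G.neighborSet v).encard ≤ D) {c : ℝ} (hc0 : 0 < c)
    (n : ℕ) (hexp : ∀ (v : V) (r : ℕ), r ≤ n → BE G c v r)
    (lam κ : ℝ) (hlam : 1 ≤ lam) (hκ : 1 ≤ κ)
    (hup : ∀ (v : V) (r : ℕ), r ≤ n → ((ball G v r).ncard : ℝ) ≤ κ * lam ^ r)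
    (x : V) (hx : lam ^ n ≤ ((ball G x n).ncard : ℝ))
    (k M R : ℕ) (hk : 16 * κ ^ 2 ≤ lam ^ k) (hM : M * k ≤ n) (hR : 32 * κ ^ 2 ≤ (1 + c) ^ R) :
    M ≤ 2 * (D + 1) ^ R := by
  classical
  obtain ⟨anc, ha1, ha2, ha3, ha4⟩ := exists_anc hc x
  have hκ0 : (0 : ℝ) < κ := by linarith
  have hlam0 : (0 : ℝ) < lam := by linarith
  set I : Finset V := fball hc hD x n with hI
  have hIcard : (I.card : ℝ) = ((ball G x n).ncard : ℝ) := by rw [hI, card_fball]
  have hIn : ∀ a ∈ I, G.dist x a ≤ n := fun a ha => (mem_fball hc hD).1 ha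
  have hancn : ∀ a ∈ I, anc n a = a := fun a ha => ha4 n a (hIn a ha)
  have hIpos : 0 < I.card := by
    rw [hI, card_fball]
    exact ncard_ball_pos hc hD x n
  -- bad vertices
  have hbad : ∀ j ≤ n, 8 * ((I.filter (fun a => 8 * κ *
      ((I.filter (fun b => anc j b = anc j a)).card : ℝ) < lam ^ (n - j))).card : ℝ) ≤ I.card := by
    intro j hj
    set B := I.filter (fun a => 8 * κ *
      ((I.filter (fun b => anc j b = anc j a)).card : ℝ) < lam ^ (n - j)) with hB
    have h1 : (B.card : ℝ) = ∑ u ∈ B.image (fun a => anc j a),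
        ((B.filter (fun b => anc j b = u)).card : ℝ) := by
      exact_mod_cast card_eq_sum_card_image (fun a : V => anc j a) B
    have h2 : ∀ u ∈ B.image (fun a => anc j a), 8 * κ *
        ((B.filter (fun b => anc j b = u)).card : ℝ) ≤ lam ^ (n - j) := by
      intro u hu
      obtain ⟨a, ha, rfl⟩ := mem_image.1 hu
      have h3 := (mem_filter.1 ha).2
      refine le_trans ?_ h3.le
      have h4 : (B.filter (fun b => anc j b = anc j a)).card ≤
          (I.filter (fun b => anc j b = anc j a)).card :=
        card_le_card (filter_subset_filter _ (filter_subset _ _))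
      gcongr
    have h3 : ((B.image (fun a => anc j a)).card : ℝ) ≤ κ * lam ^ j := by
      refine le_trans ?_ (hup x j hj)
      rw [← card_fball hc hD]
      have h4 : B.image (fun a => anc j a) ⊆ fball hc hD x j := by
        intro u hu
        obtain ⟨a, _, rfl⟩ := mem_image.1 hu
        exact (mem_fball hc hD).2 (ha1 j a)
      exact_mod_cast card_le_card h4
    have h5 : 8 * κ * (B.card : ℝ) ≤ κ * (I.card : ℝ) := by
      calc 8 * κ * (B.card : ℝ) = ∑ u ∈ B.image (fun a => anc j a), 8 * κ *
            ((B.filter (fun b => anc j b = u)).card : ℝ) := by rw [h1, mul_sum]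
        _ ≤ ∑ u ∈ B.image (fun a => anc j a), lam ^ (n - j) := sum_le_sum h2
        _ = ((B.image (fun a => anc j a)).card : ℝ) * lam ^ (n - j) := by
            rw [sum_const, nsmul_eq_mul]
        _ ≤ κ * lam ^ j * lam ^ (n - j) := by gcongr
        _ = κ * lam ^ n := by
            rw [mul_assoc, ← pow_add, Nat.add_sub_cancel' hj]
        _ ≤ κ * (I.card : ℝ) := by
            rw [hIcard]
            gcongr
    have h6 : κ * (8 * (B.card : ℝ)) ≤ κ * (I.card : ℝ) := by linarith
    exact le_of_mul_le_mul_left h6 hκ0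
  -- the classes lie in balls
  have hcl : ∀ j ≤ n, ∀ a ∈ I, (I.filter (fun b => anc j b = anc j a)).card ≤
      (ball G (anc j a) (n - j)).ncard := by
    intro j hj a _
    rw [← card_fball hc hD]
    refine card_le_card ?_
    intro b hb
    obtain ⟨hb1, hb2⟩ := mem_filter.1 hb
    rw [mem_fball]
    have h1 := ha3 j (n - j) b
    rw [Nat.add_sub_cancel' hj, hancn b hb1, hb2] at h1
    exact h1
  set δ : ℝ := 1 / (8 * κ ^ 2) with hδdef
  have hδ : 0 < δ := by positivity
  refine qchain hc hD hc0 n hexp I (card_pos.1 hIpos) (fun a i => anc i a) (fun a i => anc i a)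
    k M R 1 δ hδ ?_ ?_ ?_ hM ?_ ?_
  · intro a _ i l
    exact ha3 i l a
  · intro a _ b _ i j hij hab
    have hab' : anc i a = anc i b := hab
    show anc j a = anc j b
    rw [← ha2 i j a hij, ← ha2 i j b hij, hab']
  · intro z
    rw [card_le_one]
    intro a ha b hb
    obtain ⟨ha', ha''⟩ := mem_filter.1 ha
    obtain ⟨hb', hb''⟩ := mem_filter.1 hb
    rw [hancn a ha'] at ha''
    rw [hancn b hb'] at hb''
    rw [ha'', hb'']
  · rw [hδdef, div_mul_eq_mul_div, le_div_iff₀ (by positivity)]
    push_cast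
    linarith
  · intro i hi
    have hik : (i + 1) * k ≤ n := (Nat.mul_le_mul_right k hi).trans hM
    have hik' : (i + 1) * k = i * k + k := by ring
    have hb1 := hbad (i * k) (by omega)
    have hb2 := hbad ((i + 1) * k) hik
    set B1 := I.filter (fun a => 8 * κ *
      ((I.filter (fun b => anc (i * k) b = anc (i * k) a)).card : ℝ) < lam ^ (n - i * k)) with hB1
    set B2 := I.filter (fun a => 8 * κ *
      ((I.filter (fun b => anc ((i + 1) * k) b = anc ((i + 1) * k) a)).card : ℝ) <
        lam ^ (n - (i + 1) * k)) with hB2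
    set GG := I.filter (fun a =>
        2 * (ball G (anc ((i + 1) * k) a) (n - (i + 1) * k)).ncard ≤
          (ball G (anc (i * k) a) (n - i * k)).ncard ∧
        δ * ((ball G (anc ((i + 1) * k) a) (n - (i + 1) * k)).ncard : ℝ) ≤
          ((I.filter (fun b => anc ((i + 1) * k) b = anc ((i + 1) * k) a)).card : ℝ)) with hGG
    have hsub : I ⊆ (B1 ∪ B2) ∪ GG := by
      intro a haI
      by_cases hw1 : a ∈ B1
      · exact mem_union_left _ (mem_union_left _ hw1)
      by_cases hw2 : a ∈ B2
      · exact mem_union_left _ (mem_union_right _ hw2)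
      apply mem_union_right
      have e1 : lam ^ (n - i * k) ≤ 8 * κ *
          ((I.filter (fun b => anc (i * k) b = anc (i * k) a)).card : ℝ) := by
        by_contra h
        exact hw1 (mem_filter.2 ⟨haI, not_le.1 h⟩)
      have e2 : lam ^ (n - (i + 1) * k) ≤ 8 * κ *
          ((I.filter (fun b => anc ((i + 1) * k) b = anc ((i + 1) * k) a)).card : ℝ) := by
        by_contra h
        exact hw2 (mem_filter.2 ⟨haI, not_le.1 h⟩)
      have g1 : ((I.filter (fun b => anc (i * k) b = anc (i * k) a)).card : ℝ) ≤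
          ((ball G (anc (i * k) a) (n - i * k)).ncard : ℝ) := by
        exact_mod_cast hcl (i * k) (by omega) a haI
      have g2 := hup (anc ((i + 1) * k) a) (n - (i + 1) * k) (by omega)
      refine mem_filter.2 ⟨haI, ?_, ?_⟩
      · have h1 : lam ^ (n - i * k) = lam ^ k * lam ^ (n - (i + 1) * k) := by
          rw [← pow_add]
          congr 1
          omega
        have h2 : (0 : ℝ) < lam ^ (n - (i + 1) * k) := by positivity
        have h3 : 16 * κ ^ 2 * lam ^ (n - (i + 1) * k) ≤
            8 * κ * ((ball G (anc (i * k) a) (n - i * k)).ncard : ℝ) := by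
          calc 16 * κ ^ 2 * lam ^ (n - (i + 1) * k) ≤ lam ^ k * lam ^ (n - (i + 1) * k) := by
                gcongr
            _ = lam ^ (n - i * k) := h1.symm
            _ ≤ _ := e1
            _ ≤ _ := by gcongr
        have h4 : 8 * κ * (2 * ((ball G (anc ((i + 1) * k) a) (n - (i + 1) * k)).ncard : ℝ)) ≤
            8 * κ * ((ball G (anc (i * k) a) (n - i * k)).ncard : ℝ) := by
          calc 8 * κ * (2 * ((ball G (anc ((i + 1) * k) a) (n - (i + 1) * k)).ncard : ℝ)) ≤
              8 * κ * (2 * (κ * lam ^ (n - (i + 1) * k))) := by gcongr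
            _ = 16 * κ ^ 2 * lam ^ (n - (i + 1) * k) := by ring
            _ ≤ _ := h3
        have h5 := le_of_mul_le_mul_left h4 (by positivity)
        exact_mod_cast h5
      · rw [hδdef, div_mul_eq_mul_div, div_le_iff₀ (by positivity), one_mul]
        calc ((ball G (anc ((i + 1) * k) a) (n - (i + 1) * k)).ncard : ℝ) ≤
            κ * lam ^ (n - (i + 1) * k) := g2
          _ ≤ κ * (8 * κ *
              ((I.filter (fun b => anc ((i + 1) * k) b = anc ((i + 1) * k) a)).card : ℝ)) := by
              gcongr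
          _ = _ := by ring
    have h1 := card_le_card hsub
    have h2 := card_union_le (B1 ∪ B2) GG
    have h3 := card_union_le B1 B2
    have h6 : (I.card : ℝ) ≤ (B1.card : ℝ) + B2.card + GG.card := by
      have : I.card ≤ B1.card + B2.card + GG.card := by omega
      exact_mod_cast this
    have h7 : 3 * (I.card : ℝ) ≤ 4 * (GG.card : ℝ) := by linarith
    rw [hGG] at h7
    convert h7

end Pool.Agent.FGQ
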