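import Pool.Agent.FGQ.Defs

set_option autoImplicit false

namespace Pool.Agent.FGQ

open Finset Pool.Agent.MP_515f4e_co

/-- One-ball version of `card_deep_le` (Pool/Agent/MP_515f4e_co/Balls.lean): the same proof, which uses the
expansion only in the ball `B(v,r)`. -/
theorem deep_le {V : Type} {G : SimpleGraph V} (hc : G.Connected) {D : ℕ}
    (hD : ∀ v, (G.neighborSet v).encard ≤ D) {c : ℝ} (hc0 : 0 < c) (v : V) (r : ℕ)
    (hexp : BE G c v r) (A : Finset V) (hA : A ⊆ fball hc hD v r)
    (hhalf : 2 * A.card ≤ (ball G v r).ncard) (R : ℕ) :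
    (1 + c) ^ R * ((deep G A (fball hc hD v r) R).card : ℝ) ≤ A.card := by
  classical
  induction R with
  | zero =>
    simp only [pow_zero, one_mul, Nat.cast_le]
    exact card_le_card (fun y hy => (mem_deep.1 hy).1)
  | succ R ih =>
    set B := fball hc hD v r with hB
    set A1 := deep G A B (R + 1) with hA1
    set A0 := deep G A B R with hA0
    by_cases hne : A1.card = 0
    · rw [hne]; simp
    have hpos : 0 < A1.card := Nat.pos_of_ne_zero hne
    have hsubA : A1 ⊆ A := fun y hy => (mem_deep.1 hy).1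
    have h1 := hexp A1 (fun w hw => (mem_fball hc hD).1 (hA (hsubA hw))) hpos
      (le_trans (Nat.mul_le_mul_left _ (card_le_card hsubA)) hhalf)
    have hsub : A1 ∪ B.filter (fun w => w ∉ A1 ∧ ∃ s ∈ A1, G.Adj s w) ⊆ A0 := by
      intro z hz
      rw [mem_union] at hz
      rcases hz with hz | hz
      · rw [mem_deep] at hz ⊢
        exact ⟨hz.1, fun w hw hd => hz.2 w hw (by omega)⟩
      · rw [mem_filter] at hz
        obtain ⟨hzB, _, s, hs, hadj⟩ := hz
        rw [mem_deep] at hs ⊢
        have hd1 : G.dist s z ≤ 1 := by rw [SimpleGraph.dist_eq_one_iff_adj.2 hadj]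
        refine ⟨hs.2 z hzB (by omega), fun w hw hd => hs.2 w hw ?_⟩
        have := hc.dist_triangle (u := s) (v := z) (w := w)
        omega
    have hcard : A1.card + (B.filter (fun w => w ∉ A1 ∧ ∃ s ∈ A1, G.Adj s w)).card ≤ A0.card := by
      rw [← card_union_of_disjoint]
      · exact card_le_card hsub
      · rw [disjoint_left]
        intro a ha ha'
        exact (mem_filter.1 ha').2.1 ha
    have h2 : ({w : V | w ∈ ball G v r ∧ w ∉ A1 ∧ ∃ s ∈ A1, G.Adj s w}.ncard) =
        (B.filter (fun w => w ∉ A1 ∧ ∃ s ∈ A1, G.Adj s w)).card := by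
      rw [← Set.ncard_coe_finset]
      congr 1
      ext w
      simp only [Set.mem_ofPred_eq, coe_filter, hB, mem_fball, mem_ball]
    rw [h2] at h1
    have h3 : (A1.card : ℝ) + (B.filter (fun w => w ∉ A1 ∧ ∃ s ∈ A1, G.Adj s w)).card ≤ A0.card := by
      exact_mod_cast hcard
    have h4 : (1 + c) * (A1.card : ℝ) ≤ A0.card := by linarith
    calc (1 + c) ^ (R + 1) * (A1.card : ℝ) = (1 + c) ^ R * ((1 + c) * A1.card) := by ring
      _ ≤ (1 + c) ^ R * A0.card := by
          apply mul_le_mul_of_nonneg_left h4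
          positivity
      _ ≤ A.card := ih

/-- One-ball version of `growth` (Pool/Agent/MP_515f4e_co/Balls.lean): apply `hexp` to
`S = fball hc hD v r`; its boundary in the ball `B(v,s)` lies in `B(v,r+1) \ B(v,r)`. -/
theorem growth_loc {V : Type} {G : SimpleGraph V} (hc : G.Connected) {D : ℕ}
    (hD : ∀ v, (G.neighborSet v).encard ≤ D) {c : ℝ} (v : V) (r s : ℕ) (hrs : r < s)
    (hexp : BE G c v s) (hhalf : 2 * (ball G v r).ncard ≤ (ball G v s).ncard) :
    (1 + c) * ((ball G v r).ncard : ℝ) ≤ (ball G v (r + 1)).ncard := by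
  classical
  have hle : (ball G v r).ncard ≤ (ball G v (r + 1)).ncard := by
    apply ncard_ball_mono hc hD
    intro z hz
    rw [mem_ball] at *
    omega
  have h1 := hexp (fball hc hD v r) (fun w hw => by
      rw [mem_fball] at hw
      rw [mem_ball]; omega) (by rw [card_fball]; exact ncard_ball_pos hc hD v r)
    (by rw [card_fball]; omega)
  have h2 : {w : V | w ∈ ball G v s ∧ w ∉ fball hc hD v r ∧ ∃ s ∈ fball hc hD v r, G.Adj s w} ⊆
      ((fball hc hD v (r + 1) \ fball hc hD v r : Finset V) : Set V) := by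
    rintro w ⟨_, hw2, s, hs, hadj⟩
    rw [mem_coe, mem_sdiff]
    refine ⟨?_, hw2⟩
    rw [mem_fball] at *
    have h3 := hc.dist_triangle (u := v) (v := s) (w := w)
    have h4 : G.dist s w = 1 := SimpleGraph.dist_eq_one_iff_adj.2 hadj
    omega
  have h3 := Set.ncard_le_ncard h2 (Finset.finite_toSet _)
  rw [Set.ncard_coe_finset, card_sdiff_of_subset] at h3
  · rw [card_fball, card_fball] at h3
    rw [card_fball] at h1
    have h5 : ((ball G v (r + 1)).ncard - (ball G v r).ncard : ℕ) =
        ((ball G v (r + 1)).ncard : ℝ) - (ball G v r).ncard := by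
      rw [Nat.cast_sub hle]
    have h6 : ({w : V | w ∈ ball G v s ∧ w ∉ fball hc hD v r ∧
        ∃ s ∈ fball hc hD v r, G.Adj s w}.ncard : ℝ) ≤
        ((ball G v (r + 1)).ncard : ℝ) - (ball G v r).ncard := by
      rw [← h5]; exact_mod_cast h3
    linarith
  · intro w hw
    rw [mem_fball] at *
    omega

end Pool.Agent.FGQ
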