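import Pool.Agent.MP_515f4e_co.Count

set_option autoImplicit false

namespace Pool.Agent.FGQ

open Pool.Agent.MP_515f4e_co

/-- the ball `B(v,r)` has Cheeger constant greater than `c` -/
def BE {V : Type} (G : SimpleGraph V) (c : ℝ) (v : V) (r : ℕ) : Prop :=
  ∀ S : Finset V, (∀ w ∈ S, w ∈ ball G v r) → 0 < S.card →
    2 * S.card ≤ (ball G v r).ncard →
    c * (S.card : ℝ) < ({w : V | w ∈ ball G v r ∧ w ∉ S ∧ ∃ s ∈ S, G.Adj s w}.ncard : ℝ)

end Pool.Agent.FGQ
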