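import Pool.Agent.FGQ.Deep

set_option autoImplicit false

namespace Pool.Agent.FGQ

open Finset Pool.Agent.MP_515f4e_co

/-- spheres are not empty: `V` is infinite and balls are finite, so there is a vertex `z` with
`dist v z > m`; a shortest walk from `v` to `z` passes a vertex at distance `m` (`exists_prev` in
Balls.lean or `exists_path`). -/
theorem exists_sphere {V : Type} {G : SimpleGraph V} [Infinite V] (hc : G.Connected) {D : ℕ}
    (hD : ∀ v, (G.neighborSet v).encard ≤ D) (v : V) (m : ℕ) : ∃ y, G.dist v y = m := by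
  obtain ⟨r, hr⟩ := exists_large_ball hc hD v ((ball G v m).ncard + 1)
  obtain ⟨z, hz⟩ : ∃ z, m < G.dist v z := by
    by_contra h
    push Not at h
    have h1 : (ball G v r).ncard ≤ (ball G v m).ncard := by
      apply ncard_ball_mono hc hD
      intro z _
      exact h z
    omega
  obtain ⟨p, hp⟩ := hc.exists_walk_length_eq_dist v z
  refine ⟨p.getVert m, ?_⟩
  have h1 := SimpleGraph.dist_le (p.take m)
  rw [SimpleGraph.Walk.take_length] at h1
  have h2 := SimpleGraph.dist_le (p.drop m)
  rw [SimpleGraph.Walk.drop_length] at h2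
  have h3 := hc.dist_triangle (u := v) (v := p.getVert m) (w := z)
  omega

theorem Grow_ball_mono {V : Type} {G : SimpleGraph V} (hc : G.Connected) {D : ℕ}
    (hD : ∀ v, (G.neighborSet v).encard ≤ D) (v : V) {r s : ℕ} (h : r ≤ s) :
    (ball G v r).ncard ≤ (ball G v s).ncard := by
  apply ncard_ball_mono hc hD
  intro z hz
  rw [mem_ball] at *
  omega

theorem Grow_caseA {V : Type} {G : SimpleGraph V} (hc : G.Connected) {D : ℕ}
    (hD : ∀ v, (G.neighborSet v).encard ≤ D) {c : ℝ} (hc0 : 0 < c)
    (n : ℕ) (w : V) (hexp : BE G c w n) (h : 2 * (ball G w (n / 4)).ncard ≤ (ball G w n).ncard) :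
    ∀ s, s ≤ n / 4 → (1 + c) ^ s ≤ ((ball G w s).ncard : ℝ) := by
  intro s
  induction s with
  | zero =>
    intro _
    rw [pow_zero]
    have := ncard_ball_pos hc hD w 0
    exact_mod_cast this
  | succ s ih =>
    intro hs
    have h1 := Grow_ball_mono hc hD w (show s ≤ n / 4 by omega)
    have h2 := growth_loc hc hD w s n (by omega) hexp (by omega)
    refine le_trans ?_ h2
    rw [pow_succ']
    exact mul_le_mul_of_nonneg_left (ih (by omega)) (by linarith)

/-- PROOF.  Let `q = n / 4`.  If `q = 0` take any `w` (then `s = 0`, `|B(w,0)| = 1`).  Let `q ≥ 1` and fix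
any `v`.
Case A: `2 |B(v,q)| ≤ |B(v,n)|`.  Then `w = v`: induction on `s`, for `s < q` the ball `B(v,s) ⊆ B(v,q)`
is at most half of `B(v,n)`, `growth_loc`.
Case B: `|B(v,n)| < 2 |B(v,q)|`.  Take `y` with `dist v y = 2q+1` (`exists_sphere`).  `B(y,q)` and `B(v,q)`
are disjoint, both are contained in `B(v,n)` and in `B(y,n)` (`3q+1 ≤ n`).  So
`|B(y,q)| ≤ |B(v,n)| - |B(v,q)| < |B(v,q)|` and `|B(y,n)| ≥ |B(y,q)| + |B(v,q)| ≥ 2 |B(y,q)|`.  Now
`w = y` as in case A. -/
theorem exists_growing {V : Type} {G : SimpleGraph V} [Infinite V] (hc : G.Connected) {D : ℕ}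
    (hD : ∀ v, (G.neighborSet v).encard ≤ D) {c : ℝ} (hc0 : 0 < c)
    (n : ℕ) (hexp : ∀ (v : V) (r : ℕ), r ≤ n → BE G c v r) :
    ∃ w : V, ∀ s, s ≤ n / 4 → (1 + c) ^ s ≤ ((ball G w s).ncard : ℝ) := by
  have hne : Nonempty V := hc.nonempty
  obtain ⟨v⟩ := hne
  rcases Nat.eq_zero_or_pos (n / 4) with hq | hq
  · refine ⟨v, fun s hs => ?_⟩
    have hs0 : s = 0 := by omega
    rw [hs0, pow_zero]
    have := ncard_ball_pos hc hD v 0
    exact_mod_cast this
  · by_cases hA : 2 * (ball G v (n / 4)).ncard ≤ (ball G v n).ncard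
    · exact ⟨v, Grow_caseA hc hD hc0 n v (hexp v n le_rfl) hA⟩
    · push Not at hA
      obtain ⟨y, hy⟩ := exists_sphere hc hD v (2 * (n / 4) + 1)
      refine ⟨y, Grow_caseA hc hD hc0 n y (hexp y n le_rfl) ?_⟩
      classical
      have hdisj : Disjoint (fball hc hD v (n / 4)) (fball hc hD y (n / 4)) := by
        rw [Finset.disjoint_left]
        intro z hz1 hz2
        rw [mem_fball] at hz1 hz2
        have h3 := hc.dist_triangle (u := v) (v := z) (w := y)
        rw [SimpleGraph.dist_comm (u := z) (v := y)] at h3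
        omega
      have hsub1 : fball hc hD v (n / 4) ∪ fball hc hD y (n / 4) ⊆ fball hc hD v n := by
        intro z hz
        rw [mem_union, mem_fball, mem_fball] at hz
        rw [mem_fball]
        rcases hz with hz | hz
        · omega
        · have h3 := hc.dist_triangle (u := v) (v := y) (w := z)
          omega
      have hsub2 : fball hc hD v (n / 4) ∪ fball hc hD y (n / 4) ⊆ fball hc hD y n := by
        intro z hz
        rw [mem_union, mem_fball, mem_fball] at hz
        rw [mem_fball]
        rcases hz with hz | hz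
        · have h3 := hc.dist_triangle (u := y) (v := v) (w := z)
          rw [SimpleGraph.dist_comm (u := y) (v := v)] at h3
          omega
        · omega
      have h1 := card_le_card hsub1
      have h2 := card_le_card hsub2
      rw [card_union_of_disjoint hdisj, card_fball, card_fball, card_fball] at h1 h2
      omega

/-- Take `S = {x}` in `B(x,1)`: `x` has a neighbour (`exists_sphere` with `m = 1`), so
`2 ≤ |B(x,1)|`; the boundary lies in the neighbourhood of `x`, which has at most `D` elements. -/
theorem c_lt {V : Type} {G : SimpleGraph V} [Infinite V] (hc : G.Connected) {D : ℕ}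
    (hD : ∀ v, (G.neighborSet v).encard ≤ D) {c : ℝ} (x : V) (hexp : BE G c x 1) : c < D := by
  classical
  obtain ⟨y, hy⟩ := exists_sphere hc hD x 1
  have hxy : x ≠ y := by
    intro h
    rw [h, SimpleGraph.dist_self] at hy
    omega
  have h2 : 2 ≤ (ball G x 1).ncard := by
    rw [← card_fball hc hD]
    have : ({x, y} : Finset V) ⊆ fball hc hD x 1 := by
      intro z hz
      rw [mem_insert, mem_singleton] at hz
      rw [mem_fball]
      rcases hz with rfl | rfl
      · rw [SimpleGraph.dist_self]; omega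
      · omega
    have h3 := card_le_card this
    rwa [card_pair hxy] at h3
  have h1 := hexp {x} (by
    intro w hw
    rw [mem_singleton] at hw
    rw [hw, mem_ball, SimpleGraph.dist_self]
    omega) (by simp) (by rw [card_singleton]; omega)
  rw [card_singleton, Nat.cast_one, mul_one] at h1
  refine lt_of_lt_of_le h1 ?_
  have hsub : {w : V | w ∈ ball G x 1 ∧ w ∉ ({x} : Finset V) ∧ ∃ s ∈ ({x} : Finset V), G.Adj s w} ⊆ G.neighborSet x := by
    rintro w ⟨_, _, s, hs, hadj⟩
    rw [mem_singleton] at hs
    rw [hs] at hadj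
    exact hadj
  have hfin : (G.neighborSet x).Finite := Set.finite_of_encard_le_coe (hD x)
  have h3 := Set.ncard_le_ncard hsub hfin
  have h4 : (G.neighborSet x).ncard ≤ D := by
    have h5 := hD x
    rw [← hfin.cast_ncard_eq] at h5
    exact_mod_cast h5
  exact_mod_cast h3.trans h4

end Pool.Agent.FGQ
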