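import Mathlib

set_option autoImplicit false

namespace Pool.Agent.FGQ

/-- NUMERICS, pure real analysis.  PROOF.  `K = 1000 (D+1)^2`.  Put `L = log n > 0`,
`e = log (2 κ) ≥ log 2`, so `c = K e / L`.  `c < D` gives `D ≥ 1` and `L > K e / D ≥ K log 2 / D ≥ 600 (D+1)`
(so `n` is enormous).
(1) `log (1+c) ≥ c/(1+c) ≥ c/(1+D)`.
(2) `R = ⌈5 (1+D) L / K⌉`: `R log (1+c) ≥ 5 e ≥ log 8 + 2 e = log (32 κ^2)` since `32 κ^2 = 8 (2κ)^2`.
(3) `q = n/4 ≥ n/8`: taking logs in `hgr`, `q log (1+c) ≤ log κ + q log lam`, so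
`log lam ≥ c/(1+D) - e/q ≥ c/(1+D) - 8 e/n ≥ c/(2(1+D))`, because `16 (1+D) L ≤ K n` (`L ≤ n`).
(4) `k = ⌈8 (1+D) L / K⌉`: `k log lam ≥ 4 e ≥ log 4 + 2 e = log (16 κ^2)`.
(5) `M = 2 (D+1)^R + 1`.  `M k ≤ n`: `R ≤ 5 (1+D) L / K + 1`, so
`(D+1)^R ≤ (D+1) exp (log (D+1) * 5 (1+D) L / K) ≤ (D+1) exp (L/4)` (as `20 (1+D) log (D+1) ≤ K`);
`k ≤ 8 (1+D) L / K + 1 ≤ L + 1 ≤ 5 exp (L/4)` (`L = 4 (L/4) ≤ 4 exp (L/4)`); so
`M k ≤ 3 (D+1) exp (L/4) * 5 exp (L/4) = 15 (D+1) exp (L/2) ≤ exp L = n`, because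
`exp (L/2) ≥ L/2 ≥ 300 (D+1)`. -/
theorem numerics (D : ℕ) (K : ℝ) (hK : K = 1000 * ((D : ℝ) + 1) ^ 2) (n : ℕ) (lam κ : ℝ)
    (hn : 2 ≤ n) (hlam : 1 ≤ lam) (hκ : 1 ≤ κ)
    (hcD : K * Real.log (2 * κ) / Real.log n < D)
    (hgr : (1 + K * Real.log (2 * κ) / Real.log n) ^ (n / 4) ≤ κ * lam ^ (n / 4)) :
    ∃ k M R : ℕ, 16 * κ ^ 2 ≤ lam ^ k ∧ M * k ≤ n ∧
      32 * κ ^ 2 ≤ (1 + K * Real.log (2 * κ) / Real.log n) ^ R ∧ 2 * (D + 1) ^ R < M := by
  obtain ⟨d, hd⟩ : ∃ d : ℝ, d = (D : ℝ) + 1 := ⟨_, rfl⟩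
  have hKd : K = 1000 * d ^ 2 := by rw [hK, hd]
  have hD0 : (0 : ℝ) ≤ (D : ℝ) := by positivity
  have hd1 : 1 ≤ d := by linarith
  have hK0 : 0 < K := by rw [hKd]; positivity
  have hn2 : (2 : ℝ) ≤ (n : ℝ) := by exact_mod_cast hn
  have hn0 : (0 : ℝ) < (n : ℝ) := by linarith
  obtain ⟨L, hL⟩ : ∃ L : ℝ, L = Real.log n := ⟨_, rfl⟩
  obtain ⟨e, he⟩ : ∃ e : ℝ, e = Real.log (2 * κ) := ⟨_, rfl⟩
  rw [← hL, ← he] at hcD hgr ⊢
  have hL0 : 0 < L := by rw [hL]; exact Real.log_pos (by linarith)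
  have hlog2 : (0.69 : ℝ) < Real.log 2 := by
    have := Real.log_two_gt_d9
    linarith
  have hlog2' : Real.log 2 < (0.7 : ℝ) := by
    have := Real.log_two_lt_d9
    linarith
  have he2 : Real.log 2 ≤ e := by
    rw [he]
    exact Real.log_le_log (by norm_num) (by linarith)
  have he0 : 0 < e := by linarith
  have hek : Real.log κ ≤ e := by
    rw [he]
    exact Real.log_le_log (by linarith) (by linarith)
  obtain ⟨c, hc⟩ : ∃ c : ℝ, c = K * e / L := ⟨_, rfl⟩
  rw [← hc] at hcD hgr ⊢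
  have hc0 : 0 < c := by rw [hc]; positivity
  have hcd : c < d - 1 := by rw [hd]; linarith
  have hcL : c * L = K * e := by
    rw [hc]
    field_simp
  -- `L > 600 d`
  have hL600 : 600 * d < L := by
    have h1 : K * e < d * L := by
      rw [← hcL]
      exact mul_lt_mul_of_pos_right (by linarith) hL0
    have h2 : K * 0.69 ≤ K * e := mul_le_mul_of_nonneg_left (by linarith) hK0.le
    have h3 : d * (1000 * d * 0.69) < d * L := by
      have : d * (1000 * d * 0.69) = K * 0.69 := by rw [hKd]; ring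
      linarith
    have h4 := lt_of_mul_lt_mul_left h3 (by linarith)
    linarith
  -- (1)
  have hlogc : c / d ≤ Real.log (1 + c) := by
    have h1 := Real.one_sub_inv_le_log_of_pos (show 0 < 1 + c by linarith)
    have h2 : 1 - (1 + c)⁻¹ = c / (1 + c) := by
      field_simp
      ring
    rw [h2] at h1
    refine le_trans ?_ h1
    apply div_le_div_of_nonneg_left hc0.le (by linarith) (by linarith)
  have hcdL : c / d = 1000 * d * e / L := by
    rw [hc, hKd]
    field_simp
  -- `R`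
  obtain ⟨R, hR⟩ : ∃ R : ℕ, R = ⌈5 * d * L / K⌉₊ := ⟨_, rfl⟩
  have hR1 : 5 * d * L / K ≤ (R : ℝ) := by rw [hR]; exact Nat.le_ceil _
  have hR2 : (R : ℝ) ≤ 5 * d * L / K + 1 := by
    rw [hR]
    exact (Nat.ceil_lt_add_one (by positivity)).le
  have hRlog : 5 * e ≤ R * Real.log (1 + c) := by
    have h1 : 5 * d * L / K * (c / d) = 5 * e := by
      rw [hc]
      have : d ≠ 0 := by positivity
      field_simp
    calc 5 * e = 5 * d * L / K * (c / d) := h1.symm
      _ ≤ R * Real.log (1 + c) := by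
        apply mul_le_mul hR1 hlogc (by positivity) (by positivity)
  -- `lam`
  have hlam0 : 0 < lam := by linarith
  have hllam : 0 ≤ Real.log lam := Real.log_nonneg hlam
  have hexpn : Real.exp L = n := by rw [hL]; exact Real.exp_log hn0
  have hLn : L ≤ n := by
    rw [← hexpn]
    have := Real.add_one_le_exp L
    linarith
  have hq8 : (n : ℝ) / 8 ≤ ((n / 4 : ℕ) : ℝ) := by
    have h1 : 4 * (n / 4) + 3 ≥ n := by omega
    have h2 : (n : ℝ) ≤ 4 * ((n / 4 : ℕ) : ℝ) + 3 := by exact_mod_cast h1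
    linarith
  have hq0 : 0 < ((n / 4 : ℕ) : ℝ) := by
    have : 0 < (n : ℝ) / 8 := by positivity
    linarith
  have hlamlog : c / (2 * d) ≤ Real.log lam := by
    have h1 := Real.log_le_log (by positivity) hgr
    rw [Real.log_pow, Real.log_mul (by linarith |> fun (h : 0 < κ) => h.ne') (by positivity), Real.log_pow] at h1
    have h2 : ((n / 4 : ℕ) : ℝ) * (c / d) ≤ e + ((n / 4 : ℕ) : ℝ) * Real.log lam := by
      have := mul_le_mul_of_nonneg_left hlogc hq0.le
      linarith
    have h3 : e ≤ ((n / 4 : ℕ) : ℝ) * (c / (2 * d)) := by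
      have h4 : (n : ℝ) / 8 * (c / (2 * d)) ≤ ((n / 4 : ℕ) : ℝ) * (c / (2 * d)) :=
        mul_le_mul_of_nonneg_right hq8 (by positivity)
      refine le_trans ?_ h4
      have h5 : c / (2 * d) = 500 * d * e / L := by
        have : c / (2 * d) = (c / d) / 2 := by
          rw [div_div]
          congr 1
          ring
        rw [this, hcdL]
        ring
      rw [h5]
      have h6 : e * 1 ≤ e * ((n : ℝ) / L * (62.5 * d)) := by
        apply mul_le_mul_of_nonneg_left _ he0.le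
        have h7 : 1 ≤ (n : ℝ) / L := by
          rw [le_div_iff₀ hL0]
          linarith
        have h8 : (1 : ℝ) ≤ 62.5 * d := by linarith
        have := mul_le_mul h7 h8 (by norm_num) (by linarith)
        linarith
      refine le_trans (by linarith) (h6.trans (le_of_eq ?_))
      ring
    have h4 : ((n / 4 : ℕ) : ℝ) * (c / d - c / (2 * d)) ≤ ((n / 4 : ℕ) : ℝ) * Real.log lam := by
      rw [mul_sub]
      linarith
    have h5 := le_of_mul_le_mul_left h4 hq0
    have h6 : c / d - c / (2 * d) = c / (2 * d) := by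
      field_simp
      ring
    linarith
  -- `k`
  obtain ⟨k, hk⟩ : ∃ k : ℕ, k = ⌈8 * d * L / K⌉₊ := ⟨_, rfl⟩
  have hk1 : 8 * d * L / K ≤ (k : ℝ) := by rw [hk]; exact Nat.le_ceil _
  have hk2 : (k : ℝ) ≤ 8 * d * L / K + 1 := by
    rw [hk]
    exact (Nat.ceil_lt_add_one (by positivity)).le
  have hklog : 4 * e ≤ k * Real.log lam := by
    have h1 : 8 * d * L / K * (c / (2 * d)) = 4 * e := by
      rw [hc]
      have : d ≠ 0 := by positivity
      field_simp
      norm_num
    calc 4 * e = 8 * d * L / K * (c / (2 * d)) := h1.symm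
      _ ≤ k * Real.log lam := by
        apply mul_le_mul hk1 hlamlog (by positivity) (by positivity)
  have h2κ : Real.exp e = 2 * κ := by rw [he]; exact Real.exp_log (by linarith)
  have hexp2 : (2 : ℝ) ≤ Real.exp e := by rw [h2κ]; linarith
  have hpe : ∀ m : ℕ, Real.exp (m * e) = (2 * κ) ^ m := by
    intro m
    rw [Real.exp_nat_mul, h2κ]
  refine ⟨k, 2 * (D + 1) ^ R + 1, R, ?_, ?_, ?_, ?_⟩
  · have h1 : Real.exp (4 * e) ≤ lam ^ k := by
      rw [← Real.exp_log (show 0 < lam ^ k by positivity), Real.log_pow]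
      exact Real.exp_le_exp.2 hklog
    refine le_trans ?_ h1
    have := hpe 4
    push_cast at this
    rw [this]
    have h3 : 1 ≤ κ ^ 2 := by nlinarith
    nlinarith [mul_nonneg (sub_nonneg.2 h3) (show 0 ≤ κ ^ 2 by positivity)]
  · -- `M k ≤ n`
    have hdlog : Real.log d ≤ d := by
      have := Real.log_le_sub_one_of_pos (show 0 < d by linarith)
      linarith
    have h1 : ((D : ℝ) + 1) ^ R ≤ d * Real.exp (L / 4) := by
      rw [← hd, ← Real.exp_log (show 0 < d ^ R by positivity), Real.log_pow]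
      have h2 : R * Real.log d ≤ Real.log d + L / 4 := by
        have h3 : R * Real.log d ≤ (5 * d * L / K + 1) * Real.log d :=
          mul_le_mul_of_nonneg_right hR2 (Real.log_nonneg hd1)
        have h4 : 5 * d * L / K * Real.log d ≤ 5 * d * L / K * d :=
          mul_le_mul_of_nonneg_left hdlog (by positivity)
        have h5 : 5 * d * L / K * d = L / 200 := by
          rw [hKd]
          field_simp
          norm_num
        linarith
      calc Real.exp (R * Real.log d) ≤ Real.exp (Real.log d + L / 4) := Real.exp_le_exp.2 h2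
        _ = d * Real.exp (L / 4) := by rw [Real.exp_add, Real.exp_log (by linarith)]
    have hE : 1 ≤ Real.exp (L / 4) := Real.one_le_exp (by positivity)
    have h2 : (k : ℝ) ≤ 5 * Real.exp (L / 4) := by
      have h3 : 8 * d * L / K ≤ L := by
        rw [div_le_iff₀ hK0, hKd]
        nlinarith [mul_nonneg hL0.le (show 0 ≤ d by linarith), mul_nonneg (mul_nonneg hL0.le (show 0 ≤ d by linarith)) (show 0 ≤ d - 1 by linarith)]
      have h4 := Real.add_one_le_exp (L / 4)
      linarith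
    have h3 : (((2 * (D + 1) ^ R + 1 : ℕ)) : ℝ) ≤ 3 * d * Real.exp (L / 4) := by
      push_cast
      have : 1 ≤ d * Real.exp (L / 4) := by nlinarith
      linarith
    have h4 : (((2 * (D + 1) ^ R + 1) * k : ℕ) : ℝ) ≤ n := by
      rw [Nat.cast_mul]
      have h5 := mul_le_mul h3 h2 (by positivity) (by positivity)
      refine h5.trans ?_
      have h6 : 3 * d * Real.exp (L / 4) * (5 * Real.exp (L / 4)) = 15 * d * Real.exp (L / 2) := by
        have : Real.exp (L / 2) = Real.exp (L / 4) * Real.exp (L / 4) := by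
          rw [← Real.exp_add]
          congr 1
          ring
        rw [this]
        ring
      rw [h6, ← hexpn]
      have h7 : Real.exp L = Real.exp (L / 2) * Real.exp (L / 2) := by
        rw [← Real.exp_add]
        congr 1
        ring
      rw [h7]
      apply mul_le_mul_of_nonneg_right _ (Real.exp_pos _).le
      have h8 := Real.add_one_le_exp (L / 2)
      linarith
    exact_mod_cast h4
  · have h1 : Real.exp (5 * e) ≤ (1 + c) ^ R := by
      rw [← Real.exp_log (show 0 < (1 + c) ^ R by positivity), Real.log_pow]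
      exact Real.exp_le_exp.2 hRlog
    refine le_trans ?_ h1
    have := hpe 5
    push_cast at this
    rw [this]
    have h3 : 1 ≤ κ ^ 3 := one_le_pow₀ hκ
    have h4 : (2 * κ) ^ 5 = 32 * κ ^ 2 * κ ^ 3 := by ring
    rw [h4]
    nlinarith [mul_nonneg (sub_nonneg.2 h3) (show 0 ≤ κ ^ 2 by positivity)]
  · omega

end Pool.Agent.FGQ
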